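import Pool.Agent.H19.PSMain

/-!
# A category with binary coproducts that detects the Parry-Sullivan number

We show that for `C = (Type)ᵒᵖ`, the opposite of the category of sets, the category
`CoprodDiag C G` of diagrams of shape `G` satisfying the coproduct condition determines
`det (I - A_G)` for irreducible, non-trivial finite directed graphs `G`.

Outline.  `CoprodDiag (Type)ᵒᵖ G` is dual to the category `Shf G` of families of sets `F v` with
restriction maps inducing bijections `F v ≃ ∏_{t e = v} F (s e)`.  An equivalence `Shf G ≌ Shf H`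
sends the representable sheaves `y v` to finite coproducts of representables.  Additive
valuations on a sheaf (`val h = ∑ val (h|e)`) can therefore be transported along an
equivalence.  We apply this to the sheaf `T1` of locally constant integer functions with
`(h|e)(x) = h(e x) + 1` and its automorphism `h ↦ h + 1`.  Universal valuations take values in
cokernels of matrices `1 - M` over the Laurent polynomials, which gives that the determinants
`det (1 - t A_H)` and `det (1 - M(t))` divide each other, where `M(1)` has the same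
`det (1 - M(1))` as `A_G`.  A valuation counting paths (with values in germs at infinity of integer
sequences) shows that all closed walks have positive weight in `M(t)`, so that both determinants
are polynomials in `t` with constant term `1`, hence they are equal.  Evaluate at `t = 1`.
-/

open CategoryTheory CategoryTheory.Limits

namespace Pool.Agent.Results.MP_b5e7a1_al.ParrySullivan

open PSnum

universe v u

/-- A finite directed graph `G = (G⁰, G¹, s, t)`: a finite nonempty set `V` of vertices, a finite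
set `E` of edges, and source and target maps. -/
structure FinDigraph where
  V : Type
  E : Type
  s : E → V
  t : E → V
  [fintypeV : Fintype V]
  [decEqV : DecidableEq V]
  [fintypeE : Fintype E]
  [nonemptyV : Nonempty V]

attribute [instance] FinDigraph.fintypeV FinDigraph.decEqV FinDigraph.fintypeE
  FinDigraph.nonemptyV

namespace FinDigraph

/-- `v` can be reached from `u` by a directed path (of length at least `0`). -/
def Reaches (G : FinDigraph) : G.V → G.V → Prop :=
  Relation.ReflTransGen (fun a b => ∃ e : G.E, G.s e = a ∧ G.t e = b)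

/-- Every vertex can be reached from every vertex by a directed path. -/
def Irreducible (G : FinDigraph) : Prop := ∀ u v : G.V, G.Reaches u v

/-- `G` is a single directed cycle (of some length `n + 1 ≥ 1`): vertices and edges can be
numbered cyclically such that the `i`-th edge goes from the `i`-th vertex to the `i + 1`-st. -/
def IsDirectedCycle (G : FinDigraph) : Prop :=
  ∃ (n : ℕ) (φ : Fin (n + 1) ≃ G.V) (ψ : Fin (n + 1) ≃ G.E),
    ∀ i, G.s (ψ i) = φ i ∧ G.t (ψ i) = φ (i + 1)

/-- non-trivial: not a single directed cycle -/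
def NonTrivial (G : FinDigraph) : Prop := ¬ G.IsDirectedCycle

/-- The adjacency matrix: `(A_G)_{uv}` is the number of edges from `u` to `v`. -/
def adjMatrix (G : FinDigraph) : Matrix G.V G.V ℤ := fun u v =>
  ((Finset.univ.filter (fun e : G.E => G.s e = u ∧ G.t e = v)).card : ℤ)

/-- The Parry–Sullivan number `det (I - A_G)`. -/
def PS (G : FinDigraph) : ℤ := (1 - G.adjMatrix).det

end FinDigraph

/-- Diagrams in `C` of shape `G` which satisfy the coproduct condition: for every non-source
vertex `v`, the morphisms `D_e` with `t(e) = v` make `D_v` a coproduct of the `D_{s(e)}`. -/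
structure CoprodDiag (C : Type u) [Category.{v} C] (G : FinDigraph) where
  obj : G.V → C
  map : ∀ e : G.E, obj (G.s e) ⟶ obj (G.t e)
  coprod : ∀ v : G.V, (∃ e : G.E, G.t e = v) →
    Nonempty (IsColimit (Cofan.mk (obj v)
      (fun e : {e : G.E // G.t e = v} => map e.1 ≫ eqToHom (congrArg obj e.2))))

namespace CoprodDiag

variable {C : Type u} [Category.{v} C] {G : FinDigraph}

/-- A morphism of diagrams is a family of morphisms commuting with the maps of the diagrams. -/
@[ext] structure Hom (D D' : CoprodDiag C G) where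
  app : ∀ v : G.V, D.obj v ⟶ D'.obj v
  naturality : ∀ e : G.E, D.map e ≫ app (G.t e) = app (G.s e) ≫ D'.map e

instance : Category (CoprodDiag C G) where
  Hom := Hom
  id D := ⟨fun v => 𝟙 (D.obj v), fun e => by simp⟩
  comp f g := ⟨fun v => f.app v ≫ g.app v, fun e => by
    rw [← Category.assoc, f.naturality, Category.assoc, g.naturality, Category.assoc]⟩
  id_comp f := by
    apply Hom.ext
    funext v
    simp
  comp_id f := by
    apply Hom.ext
    funext v
    simp
  assoc f g h := by
    apply Hom.ext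
    funext v
    simp

end CoprodDiag

/-- container form of a graph without sources -/
def toGr (G : FinDigraph) (hG : ∀ v : G.V, ∃ e : G.E, G.t e = v) : Gr where
  V := G.V
  In v := {e : G.E // G.t e = v}
  src e := G.s e.1
  ne v := by
    obtain ⟨e, he⟩ := hG v
    exact ⟨⟨e, he⟩⟩

section translate

variable {G : FinDigraph} (hG : ∀ v : G.V, ∃ e : G.E, G.t e = v)

/-- the structure maps of the cofan at `v` -/
def dm (D : CoprodDiag (Type)ᵒᵖ G) {v : G.V} (e : {e : G.E // G.t e = v}) :
    D.obj (G.s e.1) ⟶ D.obj v := D.map e.1 ≫ eqToHom (congrArg D.obj e.2)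

noncomputable def glueMap (D : CoprodDiag (Type)ᵒᵖ G) (v : G.V) :
    (∀ e : {e : G.E // G.t e = v}, (D.obj (G.s e.1)).unop) → (D.obj v).unop :=
  fun x => ((D.coprod v (hG v)).some.desc (Cofan.mk
    (Opposite.op (∀ e : {e : G.E // G.t e = v}, (D.obj (G.s e.1)).unop))
    (fun e => (TypeCat.ofHom (fun x => x e)).op))).unop x

noncomputable def toShf (D : CoprodDiag (Type)ᵒᵖ G) : Shf (toGr G hG) where
  F v := (D.obj v).unop
  res e x := (dm D e).unop x
  glue x := glueMap hG D _ x
  res_glue {v} x e := by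
    have h := (D.coprod v (hG v)).some.fac (Cofan.mk
      (Opposite.op (∀ e : {e : G.E // G.t e = v}, (D.obj (G.s e.1)).unop))
      (fun e => (TypeCat.ofHom (fun x => x e)).op)) ⟨e⟩
    have h2 := congrArg (fun t => t.unop x) h
    exact h2
  glue_res {v} x := by
    have h1 : (D.coprod v (hG v)).some.desc (Cofan.mk
        (Opposite.op (∀ e : {e : G.E // G.t e = v}, (D.obj (G.s e.1)).unop))
        (fun e => (TypeCat.ofHom (fun x => x e)).op)) ≫
        (TypeCat.ofHom (fun (x : (D.obj v).unop) (e : {e : G.E // G.t e = v}) =>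
          (dm D e).unop x)).op = 𝟙 (D.obj v) := by
      apply (D.coprod v (hG v)).some.hom_ext
      rintro ⟨e⟩
      rw [← Category.assoc, (D.coprod v (hG v)).some.fac]
      rfl
    have h2 := congrArg (fun t => t.unop x) h1
    exact h2

theorem dm_nat {D D' : CoprodDiag (Type)ᵒᵖ G} (f : D ⟶ D') {v : G.V}
    (e : {e : G.E // G.t e = v}) : dm D e ≫ f.app v = f.app (G.s e.1) ≫ dm D' e := by
  obtain ⟨e, rfl⟩ := e
  simp only [dm, eqToHom_refl, Category.comp_id]
  exact f.naturality e

noncomputable def Fn : CoprodDiag (Type)ᵒᵖ G ⥤ (Shf (toGr G hG))ᵒᵖ where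
  obj D := Opposite.op (toShf hG D)
  map {D D'} f := Quiver.Hom.op (show toShf hG D' ⟶ toShf hG D from
    ⟨fun v x => (f.app v).unop x, fun {v} e x =>
      (congrArg (fun t => t.unop x) (dm_nat f e)).symm⟩)
  map_id _ := rfl
  map_comp _ _ := rfl

instance : (Fn hG).Faithful where
  map_injective {D D'} f g h := by
    apply CoprodDiag.Hom.ext
    funext v
    apply Quiver.Hom.unop_inj
    ext x
    have := congrArg (fun t => Shf.Hom.app (Quiver.Hom.unop t) v x) h
    exact this

instance : (Fn hG).Full where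
  map_surjective {D D'} g := by
    refine ⟨⟨fun v => (TypeCat.ofHom (fun x => g.unop.app v x)).op, fun e => ?_⟩, ?_⟩
    · have h := g.unop.nat (v := G.t e) ⟨e, rfl⟩
      apply Quiver.Hom.unop_inj
      ext x
      have h2 := h x
      have h3 : ∀ D : CoprodDiag (Type)ᵒᵖ G, dm D ⟨e, rfl⟩ = D.map e := by
        intro D
        simp [dm]
      change g.unop.app _ ((dm D' ⟨e, rfl⟩).unop x) = (dm D ⟨e, rfl⟩).unop _ at h2
      rw [h3, h3] at h2
      exact h2.symm
    · rfl

/-- a diagram from a sheaf -/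
noncomputable def ofShf (A : Shf (toGr G hG)) : CoprodDiag (Type)ᵒᵖ G where
  obj v := Opposite.op (A.F v)
  map e := (TypeCat.ofHom (fun x : A.F (G.t e) => A.res (v := G.t e) ⟨e, rfl⟩ x)).op
  coprod v _ := by
    have hm : ∀ e : {e : G.E // G.t e = v},
        (TypeCat.ofHom (fun x : A.F (G.t e.1) => A.res (v := G.t e.1) ⟨e.1, rfl⟩ x)).op ≫
          eqToHom (congrArg (fun v => Opposite.op (A.F v)) e.2)
        = (TypeCat.ofHom (fun x : A.F v => A.res (v := v) e x)).op := by
      rintro ⟨e, rfl⟩
      rfl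
    let desc : ∀ s : Cofan (fun e : {e : G.E // G.t e = v} => Opposite.op (A.F (G.s e.1))),
        Opposite.op (A.F v) ⟶ s.pt := fun s => (TypeCat.ofHom (fun x : s.pt.unop =>
      A.glue (v := v) (fun e => (s.inj e).unop x))).op
    refine ⟨Cofan.IsColimit.mk _ desc ?_ ?_⟩
    · intro s e
      apply Quiver.Hom.unop_inj
      ext x
      have h2 := congrArg (fun t : Opposite.op (A.F (G.s e.1)) ⟶ Opposite.op (A.F v) =>
        (t ≫ desc s).unop x) (hm e)
      exact h2.trans (A.res_glue (v := v) _ e)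
    · intro s m hmm
      apply Quiver.Hom.unop_inj
      ext x
      apply A.ext_res (v := v)
      intro e
      have h2 : (TypeCat.ofHom (fun x : A.F v => A.res (v := v) e x)).op ≫ m = s.inj e :=
        (congrArg (fun t : Opposite.op (A.F (G.s e.1)) ⟶ Opposite.op (A.F v) => t ≫ m)
          (hm e)).symm.trans (hmm e)
      have h3 := congrArg (fun t => t.unop x) h2
      exact h3.trans (A.res_glue (v := v) (fun e => (s.inj e).unop x) e).symm

theorem toShf_ofShf_res (A : Shf (toGr G hG)) {v : G.V} (e : {e : G.E // G.t e = v})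
    (x : A.F v) : (dm (ofShf hG A) e).unop x = A.res (v := v) e x := by
  obtain ⟨e, rfl⟩ := e
  rfl

instance : (Fn hG).EssSurj where
  mem_essImage A := by
    refine ⟨ofShf hG A.unop, ⟨?_⟩⟩
    let f : A.unop ⟶ toShf hG (ofShf hG A.unop) :=
      ⟨fun v x => x, fun {v} e x => (toShf_ofShf_res hG A.unop e x).symm⟩
    have hf : IsIso f := Shf.isIso_of_bijective f (fun v => Function.bijective_id)
    exact (asIso f).op

instance : (Fn hG).IsEquivalence where

end translate

theorem two_paths {G : Gr} {v0 v : G.V} (f f' : G.In v0) (hff : f ≠ f') (p : Pth G v0 v) :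
    ∃ M0, ∀ M, M0 ≤ M → 2 ≤ (paths G M v).card := by
  refine ⟨p.len + 1, fun M hM => ?_⟩
  obtain ⟨r, hr⟩ := paths_nonempty (G := G) (M - p.len - 1) (G.src f)
  obtain ⟨r', hr'⟩ := paths_nonempty (G := G) (M - p.len - 1) (G.src f')
  rw [mem_paths] at hr hr'
  rw [Nat.succ_le_iff, Finset.one_lt_card]
  refine ⟨⟨r.1, p.app (.cons f r.2)⟩, mem_paths.2 ?_, ⟨r'.1, p.app (.cons f' r'.2)⟩,
    mem_paths.2 ?_, ?_⟩
  · simp [hr]; omega
  · simp [hr']; omega
  · intro h
    obtain ⟨u, r⟩ := r
    obtain ⟨u', r'⟩ := r'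
    simp only [Sigma.mk.injEq] at h
    obtain ⟨h1, h2⟩ := h
    subst h1
    have h3 := Pth.app_inj p (.cons f r) p (.cons f' r') rfl (eq_of_heq h2)
    simp only [Sigma.mk.injEq, heq_eq_eq, Prod.mk.injEq, true_and, Pth.cons.injEq] at h3
    exact hff h3.1

namespace FinDigraph

variable {G : FinDigraph}

theorem exists_in (hirr : G.Irreducible) (hE : Nonempty G.E) (v : G.V) : ∃ e : G.E, G.t e = v := by
  obtain ⟨e0⟩ := hE
  have h := hirr (G.t e0) v
  rcases Relation.ReflTransGen.cases_tail h with h | ⟨c, _, e, _, he⟩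
  · exact ⟨e0, h.symm⟩
  · exact ⟨e, he⟩

theorem exists_out (hirr : G.Irreducible) (hE : Nonempty G.E) (v : G.V) : ∃ e : G.E, G.s e = v := by
  obtain ⟨e0⟩ := hE
  have h := hirr v (G.s e0)
  rcases Relation.ReflTransGen.cases_head h with h | ⟨c, ⟨e, he, _⟩, _⟩
  · exact ⟨e0, h.symm⟩
  · exact ⟨e, he⟩

theorem cycle_of_injective (hirr : G.Irreducible) (hE : Nonempty G.E)
    (hinj : Function.Injective G.t) : G.IsDirectedCycle := by
  classical
  have htb : Function.Bijective G.t := ⟨hinj, fun v => exists_in hirr hE v⟩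
  let τ : G.E ≃ G.V := Equiv.ofBijective G.t htb
  have hps : Function.Surjective (fun v => G.s (τ.symm v)) := by
    intro v
    obtain ⟨e, he⟩ := exists_out hirr hE v
    exact ⟨τ e, by simpa using he⟩
  have hpb : Function.Bijective (fun v => G.s (τ.symm v)) :=
    Finite.surjective_iff_bijective.1 hps
  let π : G.V ≃ G.V := Equiv.ofBijective _ hpb
  let σ : Equiv.Perm G.V := π.symm
  have hπ : ∀ v, π v = G.s (τ.symm v) := fun v => rfl
  have hstep : ∀ e : G.E, σ (G.s e) = G.t e := by
    intro e
    rw [Equiv.symm_apply_eq, hπ]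
    congr 1
    rw [Equiv.eq_symm_apply]
    rfl
  have hreach : ∀ u v, G.Reaches u v → ∃ k : ℕ, (σ ^ k) u = v := by
    intro u v h
    induction h with
    | refl => exact ⟨0, rfl⟩
    | tail _ hbc ih =>
      obtain ⟨k, hk⟩ := ih
      obtain ⟨e, rfl, rfl⟩ := hbc
      refine ⟨k + 1, ?_⟩
      rw [pow_succ', Equiv.Perm.mul_apply, hk, hstep]
  have hcyc : σ.IsCycleOn ((Finset.univ : Finset G.V) : Set G.V) := by
    refine ⟨?_, ?_⟩
    · rw [Finset.coe_univ]
      exact Set.bijOn_univ.2 σ.bijective
    · intro x _ z _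
      obtain ⟨k, hk⟩ := hreach x z (hirr x z)
      exact ⟨k, by rw [zpow_natCast, hk]⟩
  obtain ⟨v0⟩ := G.nonemptyV
  obtain ⟨n, hn⟩ : ∃ n, Fintype.card G.V = n + 1 :=
    ⟨Fintype.card G.V - 1, by have := Fintype.card_pos_iff.2 ⟨v0⟩; omega⟩
  have hmod : ∀ a b : ℕ, (σ ^ a) v0 = (σ ^ b) v0 ↔ a ≡ b [MOD (n + 1)] := by
    intro a b
    rw [hcyc.pow_apply_eq_pow_apply (Finset.mem_univ v0), Finset.card_univ, hn]
  have hφb : Function.Bijective (fun i : Fin (n + 1) => (σ ^ i.val) v0) := by
    rw [Fintype.bijective_iff_injective_and_card]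
    refine ⟨?_, by simp [hn]⟩
    intro i j hij
    have h1 := (hmod _ _).1 hij
    apply Fin.ext
    exact Nat.ModEq.eq_of_lt_of_lt h1 i.2 j.2
  let φ : Fin (n + 1) ≃ G.V := Equiv.ofBijective _ hφb
  have hφ : ∀ i, φ (i + 1) = σ (φ i) := by
    intro i
    change (σ ^ (i + 1).val) v0 = σ ((σ ^ i.val) v0)
    rw [← Equiv.Perm.mul_apply, ← pow_succ', hmod]
    rw [Fin.val_add]
    have h1 : (i.val + (1 : Fin (n + 1)).val) % (n + 1) ≡ i.val + (1 : Fin (n + 1)).val
        [MOD (n + 1)] := Nat.mod_modEq _ _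
    refine h1.trans ?_
    apply Nat.ModEq.add_left
    have h2 : (1 : Fin (n + 1)).val = 1 % (n + 1) := rfl
    rw [h2]
    exact Nat.mod_modEq _ _
  refine ⟨n, φ, ((Equiv.addRight (1 : Fin (n + 1))).trans φ).trans τ.symm, ?_⟩
  intro i
  simp only [Equiv.trans_apply, Equiv.coe_addRight]
  constructor
  · have h1 : G.s (τ.symm (φ (i + 1))) = π (φ (i + 1)) := rfl
    rw [h1, hφ]
    exact Equiv.apply_symm_apply π _
  · exact Equiv.apply_symm_apply τ _

theorem exists_branch (hirr : G.Irreducible) (hE : Nonempty G.E) (hnt : G.NonTrivial) :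
    ∃ e e' : G.E, e ≠ e' ∧ G.t e = G.t e' := by
  by_contra hcon
  push Not at hcon
  apply hnt
  apply cycle_of_injective hirr hE
  intro e e' h
  by_contra hne
  exact hcon e e' hne h

theorem exists_pth (hG : ∀ v : G.V, ∃ e : G.E, G.t e = v) {u v : G.V} (h : G.Reaches u v) :
    Nonempty (Pth (toGr G hG) u v) := by
  induction h with
  | refl => exact ⟨.nil⟩
  | tail _ hbc ih =>
    obtain ⟨p⟩ := ih
    obtain ⟨e, rfl, rfl⟩ := hbc
    exact ⟨.cons (G := toGr G hG) (⟨e, rfl⟩ : {e' : G.E // G.t e' = G.t e}) p⟩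

theorem hbr (hG : ∀ v : G.V, ∃ e : G.E, G.t e = v) (hirr : G.Irreducible) (hE : Nonempty G.E)
    (hnt : G.NonTrivial) (v : (toGr G hG).V) :
    ∃ M0, ∀ M, M0 ≤ M → 2 ≤ (paths (toGr G hG) M v).card := by
  obtain ⟨e, e', hne, het⟩ := exists_branch hirr hE hnt
  obtain ⟨p⟩ := exists_pth hG (hirr (G.t e) v)
  let f : (toGr G hG).In (G.t e) := (⟨e, rfl⟩ : {e' : G.E // G.t e' = G.t e})
  let f' : (toGr G hG).In (G.t e) := (⟨e', het.symm⟩ : {e' : G.E // G.t e' = G.t e})
  have hff : f ≠ f' := by
    intro h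
    exact hne (congrArg Subtype.val h)
  exact two_paths f f' hff p

theorem adj_toGr_apply (hG : ∀ v : G.V, ∃ e : G.E, G.t e = v) (v w : G.V) :
    adj (toGr G hG) v w = G.adjMatrix w v := by
  unfold adj adjMatrix
  congr 1
  change Finset.card (Finset.filter (fun e : {e : G.E // G.t e = v} => G.s e.1 = w)
    Finset.univ) = _
  apply Finset.card_bij (fun (e : {e : G.E // G.t e = v}) _ => e.1)
  · intro e he
    exact Finset.mem_filter.2 ⟨Finset.mem_univ _, (Finset.mem_filter.1 he).2, e.2⟩
  · intro e _ e' _ h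
    exact Subtype.ext h
  · intro e he
    have he' := (Finset.mem_filter.1 he).2
    exact ⟨⟨e, he'.2⟩, Finset.mem_filter.2 ⟨Finset.mem_univ _, he'.1⟩, rfl⟩

theorem adj_toGr (hG : ∀ v : G.V, ∃ e : G.E, G.t e = v) :
    (1 - adj (toGr G hG)).det = G.PS := by
  have h1 : (1 - adj (toGr G hG)) = (1 - G.adjMatrix : Matrix G.V G.V ℤ).transpose := by
    rw [Matrix.transpose_sub, Matrix.transpose_one]
    have h2 : adj (toGr G hG) = G.adjMatrix.transpose := by
      funext v w
      exact adj_toGr_apply hG v w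
    rw [h2]
    rfl
  exact (congrArg Matrix.det h1).trans (Matrix.det_transpose _)

theorem PS_eq_one_of_isEmpty (hE : ¬ Nonempty G.E) : G.PS = 1 := by
  rw [not_nonempty_iff] at hE
  have : G.adjMatrix = 0 := by
    ext u v
    simp [adjMatrix]
  rw [PS, this]
  simp

end FinDigraph

/-! The graph without edges. -/

def OpWeak (D : Type u) [Category.{v} D] : Prop :=
  ∀ X T : D, (∀ (Z : D) (f g : Z ⟶ X), f = g) ∨ Nonempty (X ⟶ T)

theorem OpWeak.of_equiv {D : Type*} [Category* D] {D' : Type*} [Category* D']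
    (e : D ≌ D') (h : OpWeak D) : OpWeak D' := by
  intro X T
  rcases h (e.inverse.obj X) (e.inverse.obj T) with h1 | ⟨⟨f⟩⟩
  · left
    intro Z f g
    exact e.inverse.map_injective (h1 _ _ _)
  · right
    exact ⟨e.inverse.preimage f⟩

theorem opWeak_of_isEmpty {G : FinDigraph} (hirr : G.Irreducible) (hE : ¬ Nonempty G.E) :
    OpWeak (CoprodDiag (Type)ᵒᵖ G) := by
  classical
  rw [not_nonempty_iff] at hE
  have hsub : ∀ u v : G.V, u = v := by
    intro u v
    rcases Relation.ReflTransGen.cases_tail (hirr u v) with h | ⟨c, _, e, _⟩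
    · exact h.symm
    · exact (hE.false e).elim
  obtain ⟨v0⟩ := G.nonemptyV
  intro X T
  by_cases hX : Nonempty (X.obj v0).unop
  · right
    have hX' : ∀ v, Nonempty (X.obj v).unop := fun v => by rw [hsub v v0]; exact hX
    exact ⟨⟨fun v => (TypeCat.ofHom (fun _ => (hX' v).some)).op, fun e => (hE.false e).elim⟩⟩
  · left
    intro Z f g
    rw [not_nonempty_iff] at hX
    apply CoprodDiag.Hom.ext
    funext v
    apply Quiver.Hom.unop_inj
    ext x
    rw [hsub v v0] at x
    exact (hX.false x).elim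

/-- the terminal sheaf -/
def oneShf (G : Gr) : Shf G where
  F _ := Unit
  res _ _ := ()
  glue _ := ()
  res_glue _ _ := rfl
  glue_res _ := rfl

theorem oneShf_resP (G : Gr) {u v : G.V} (p : Pth G u v) (x : (oneShf G).F v) :
    (oneShf G).resP p x = () := rfl

theorem not_opWeak {G : Gr} (w : G.V) (hc : ∀ u : G.V, ∃ c : Pth G u u, 1 ≤ c.len) :
    ¬ OpWeak (Shf G)ᵒᵖ := by
  intro h
  rcases h (Opposite.op (y w)) (Opposite.op (oneShf G)) with h1 | ⟨⟨g⟩⟩
  · have h2 := h1 (Opposite.op (T1 G)) (yl (T1c G w)).op (yl (((T1Z G).z 1).app _ (T1c G w))).op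
    have h3 := Quiver.Hom.op_inj h2
    have h4 := congrArg (fun t => Shf.Hom.app t w (yg w)) h3
    simp only [yl_yg] at h4
    have := T1_free _ _ h4.symm
    omega
  · have hz : ∀ {u v : G.V} (p : Pth G u v),
        (y w).resP p (g.unop.app v ()) = g.unop.app u () := fun p =>
      (Shf.nat_resP g.unop p ()).symm
    obtain ⟨N, hN⟩ := L_depth (single w) (g.unop.app w ())
    obtain ⟨⟨u, p⟩, hp⟩ := paths_nonempty (G := G) N w
    rw [mem_paths] at hp
    obtain ⟨i, q, hq⟩ := hN p hp.ge
    have h1 : g.unop.app u () = el (single w) i q := (hz p).symm.trans hq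
    obtain ⟨c, hcl⟩ := hc u
    have h2 : el (single w) i (q.app c) = el (single w) i q := by
      rw [← resP_el, ← h1]
      exact hz c
    have h3 := congrArg (fun x : (Σ i : (single w).ι, Tip G ((single w).w i)) => x.2.2.len)
      (el_inj _ _ _ _ _ h2)
    simp at h3
    omega

theorem exists_closed {G : FinDigraph} (hG : ∀ v : G.V, ∃ e : G.E, G.t e = v)
    (hirr : G.Irreducible) (u : G.V) : ∃ c : Pth (toGr G hG) u u, 1 ≤ c.len := by
  obtain ⟨e, rfl⟩ := hG u
  obtain ⟨p⟩ := FinDigraph.exists_pth hG (hirr (G.t e) (G.s e))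
  exact ⟨.cons (G := toGr G hG) (⟨e, rfl⟩ : {e' : G.E // G.t e' = G.t e}) p,
    Nat.succ_le_succ (Nat.zero_le (Pth.len p))⟩

theorem not_opWeak_diag {G : FinDigraph} (hirr : G.Irreducible) (hE : Nonempty G.E) :
    ¬ OpWeak (CoprodDiag (Type)ᵒᵖ G) := by
  intro h
  have hG := FinDigraph.exists_in hirr hE
  obtain ⟨v0⟩ := G.nonemptyV
  exact not_opWeak (G := toGr G hG) v0 (exists_closed hG hirr)
    (OpWeak.of_equiv (Fn hG).asEquivalence h)

/-- The opposite of the category of sets detects the Parry-Sullivan number. -/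
theorem PS_eq (G H : FinDigraph) (hG : G.Irreducible) (hG' : G.NonTrivial) (hH : H.Irreducible)
    (e : CoprodDiag (Type)ᵒᵖ G ≌ CoprodDiag (Type)ᵒᵖ H) : G.PS = H.PS := by
  by_cases hGE : Nonempty G.E
  · by_cases hHE : Nonempty H.E
    · have h1 := FinDigraph.exists_in hG hGE
      have h2 := FinDigraph.exists_in hH hHE
      let E : (Shf (toGr G h1))ᵒᵖ ≌ (Shf (toGr H h2))ᵒᵖ :=
        ((Fn h1).asEquivalence.symm.trans e).trans (Fn h2).asEquivalence
      have h3 := det_eq E.unop (fun v => by
        obtain ⟨f, hf⟩ := FinDigraph.exists_out hG hGE v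
        exact ⟨G.t f, (⟨f, rfl⟩ : {e' : G.E // G.t e' = G.t f}), hf⟩)
        (FinDigraph.hbr h1 hG hGE hG')
      rwa [FinDigraph.adj_toGr, FinDigraph.adj_toGr] at h3
    · exact (not_opWeak_diag hG hGE (OpWeak.of_equiv e.symm (opWeak_of_isEmpty hH hHE))).elim
  · by_cases hHE : Nonempty H.E
    · exact (not_opWeak_diag hH hHE (OpWeak.of_equiv e (opWeak_of_isEmpty hG hGE))).elim
    · rw [FinDigraph.PS_eq_one_of_isEmpty hGE, FinDigraph.PS_eq_one_of_isEmpty hHE]

/-- There is a category `C` with binary coproducts such that, whenever `G` and `H` are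
irreducible, non-trivial finite directed graphs for which the categories of `C`-valued diagrams
of shape `G` and `H` satisfying the coproduct condition are equivalent, then
`PS(G) = PS(H)`.  (The proof takes `C = (Type)ᵒᵖ`.) -/
theorem result : ∃ (C : Type 1) (_ : Category.{0} C), HasBinaryCoproducts C ∧
    ∀ G H : FinDigraph, G.Irreducible → G.NonTrivial → H.Irreducible → H.NonTrivial →
      Nonempty (CoprodDiag C G ≌ CoprodDiag C H) → G.PS = H.PS :=
  ⟨(Type)ᵒᵖ, inferInstance, inferInstance, fun G H hG hG' hH _ ⟨e⟩ => PS_eq G H hG hG' hH e⟩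

end Pool.Agent.Results.MP_b5e7a1_al.ParrySullivan
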